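import Mathlib

set_option autoImplicit false

/-!
# MP_9c82d2_co, Q1: a dense sequence without dense subsequences with irrational distances

Let `u` be a dense sequence in the plane, `B` the open unit disc about `0` and `B i` the open unit
disc about `(4 (i + 1), 0)`; these discs are pairwise disjoint. Let `Q` be the set of the points `q`
such that `q ∈ B` implies `q = u i` for some `i`, and `q ∈ B i` implies that `dist q (u i)` is
rational. `Q` is dense. A dense subset of `Q` contains a point of `B`, that is some `u i`, and a point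
of `B i`, and the distance of these two points is rational.
-/

namespace Pool.Agent.Results.MP_9c82d2_co.NoIrrational

open Set Metric

/-- the Euclidean plane -/
abbrev Plane : Type := EuclideanSpace ℝ (Fin 2)

theorem exists_near (p y : Plane) (ε : ℝ) (hε : 0 < ε) :
    ∃ q, dist q y < ε ∧ ∃ r : ℚ, dist q p = r := by
  by_cases h : y = p
  · refine ⟨y, by simpa using hε, 0, ?_⟩
    rw [h]
    simp
  · have hd : 0 < dist y p := dist_pos.2 h
    obtain ⟨r, hr1, hr2⟩ := exists_rat_btwn (show dist y p < dist y p + ε by linarith)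
    have hr0 : (0 : ℝ) < r := hd.trans hr1
    refine ⟨p + ((r : ℝ) / dist y p) • (y - p), ?_, r, ?_⟩
    · have h1 : p + ((r : ℝ) / dist y p) • (y - p) - y = ((r : ℝ) / dist y p - 1) • (y - p) := by
        rw [sub_smul, one_smul]
        abel
      rw [dist_eq_norm, h1, norm_smul, ← dist_eq_norm y p, Real.norm_eq_abs]
      have h2 : (r : ℝ) / dist y p - 1 = ((r : ℝ) - dist y p) / dist y p := by
        field_simp
      rw [h2, abs_div, abs_of_pos hd, div_mul_cancel₀ _ hd.ne', abs_of_pos (by linarith)]
      linarith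
    · rw [dist_eq_norm, add_sub_cancel_left, norm_smul, ← dist_eq_norm y p, Real.norm_eq_abs,
        abs_of_pos (div_pos hr0 hd), div_mul_cancel₀ _ hd.ne']

/-- the centre of the disc `B i` -/
noncomputable def ctr (i : ℕ) : Plane := EuclideanSpace.single 0 (4 * ((i : ℝ) + 1))

theorem dist_ctr (i j : ℕ) (h : i ≠ j) : 4 ≤ dist (ctr i) (ctr j) := by
  unfold ctr
  rw [EuclideanSpace.dist_single_same, Real.dist_eq]
  have h1 : 4 * ((i : ℝ) + 1) - 4 * ((j : ℝ) + 1) = 4 * (((i : ℤ) - (j : ℤ) : ℤ) : ℝ) := by
    push_cast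
    ring
  rw [h1, abs_mul, abs_of_pos (by norm_num : (0 : ℝ) < 4), ← Int.cast_abs]
  have h2 : (1 : ℤ) ≤ |(i : ℤ) - (j : ℤ)| := by
    apply Int.one_le_abs
    omega
  have h3 : (1 : ℝ) ≤ ((|(i : ℤ) - (j : ℤ)| : ℤ) : ℝ) := by exact_mod_cast h2
  linarith

theorem dist_ctr_zero (i : ℕ) : 4 ≤ dist (ctr i) 0 := by
  unfold ctr
  rw [dist_zero_right, EuclideanSpace.norm_single, Real.norm_eq_abs,
    abs_of_pos (by positivity)]
  have : (0 : ℝ) ≤ i := Nat.cast_nonneg i
  linarith

/-- the dense set -/
def Q (u : ℕ → Plane) : Set Plane :=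
  {q | (dist q 0 < 1 → q ∈ range u) ∧ ∀ i, dist q (ctr i) < 1 → ∃ r : ℚ, dist q (u i) = r}

theorem dense_Q (u : ℕ → Plane) (hu : DenseRange u) : Dense (Q u) := by
  rw [Metric.dense_iff]
  intro y ε hε
  by_cases h0 : dist y 0 < 1
  · obtain ⟨i, hi⟩ := hu.exists_dist_lt y (lt_min hε (sub_pos.2 h0))
    have hi1 := lt_of_lt_of_le hi (min_le_left _ _)
    have hi2 := lt_of_lt_of_le hi (min_le_right _ _)
    rw [dist_comm] at hi1 hi2
    have hi0 : dist (u i) 0 < 1 := by
      have := dist_triangle (u i) y 0
      linarith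
    refine ⟨u i, hi1, fun _ => ⟨i, rfl⟩, fun j hj => ?_⟩
    exfalso
    have h1 := dist_ctr_zero j
    have h2 := dist_triangle (ctr j) (u i) 0
    rw [dist_comm (ctr j) (u i)] at h2
    linarith
  · by_cases h1 : ∃ i, dist y (ctr i) < 1
    · obtain ⟨i, hi⟩ := h1
      obtain ⟨q, hq, hr⟩ := exists_near (u i) y (min ε (1 - dist y (ctr i)))
        (lt_min hε (sub_pos.2 hi))
      have hq1 := lt_of_lt_of_le hq (min_le_left _ _)
      have hq2 := lt_of_lt_of_le hq (min_le_right _ _)
      have hqi : dist q (ctr i) < 1 := by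
        have := dist_triangle q y (ctr i)
        linarith
      refine ⟨q, hq1, ?_, ?_⟩
      · intro hq0
        exfalso
        have h1 := dist_ctr_zero i
        have h2 := dist_triangle (ctr i) q 0
        rw [dist_comm (ctr i) q] at h2
        linarith
      · intro j hj
        by_cases hij : i = j
        · rw [← hij]
          exact hr
        · exfalso
          have h1 := dist_ctr i j hij
          have h2 := dist_triangle (ctr i) q (ctr j)
          rw [dist_comm (ctr i) q] at h2
          linarith
    · push Not at h1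
      refine ⟨y, mem_ball_self hε, fun h => absurd h h0, fun i hi => ?_⟩
      exfalso
      have := h1 i
      linarith

/-- Every dense set in the plane contains an injective sequence with dense range. -/
theorem exists_injective_dense (S : Set Plane) (hS : Dense S) :
    ∃ x : ℕ → Plane, Function.Injective x ∧ DenseRange x ∧ ∀ n, x n ∈ S := by
  obtain ⟨t, htc, htd⟩ := TopologicalSpace.exists_countable_dense S
  set T : Set Plane := Subtype.val '' t with hT
  have hTd : Dense T := by
    have h1 : DenseRange (Subtype.val : S → Plane) := hS.denseRange_val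
    have h2 := h1.dense_image continuous_subtype_val htd
    exact h2
  have hTc : T.Countable := htc.image _
  have hTi : T.Infinite := by
    intro hfin
    have h1 : T = univ := by
      rw [← hfin.isClosed.closure_eq]
      exact hTd.closure_eq
    have h2 : (univ : Set Plane).Infinite := infinite_univ
    rw [← h1] at h2
    exact h2 hfin
  have : Countable T := hTc.to_subtype
  have : Infinite T := hTi.to_subtype
  obtain ⟨den⟩ := nonempty_denumerable T
  let f : ℕ ≃ T := (Denumerable.eqv T).symm
  refine ⟨fun n => (f n : Plane), ?_, ?_, ?_⟩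
  · intro a b hab
    exact f.injective (Subtype.ext hab)
  · have : range (fun n => (f n : Plane)) = T := by
      ext y
      constructor
      · rintro ⟨n, rfl⟩
        exact (f n).2
      · intro hy
        exact ⟨f.symm ⟨y, hy⟩, by simp⟩
    rw [DenseRange, this]
    exact hTd
  · intro n
    obtain ⟨s, _, hs⟩ := (f n).2
    show (f n : Plane) ∈ S
    rw [← hs]
    exact s.2

/-- There is a dense sequence of pairwise distinct points of the plane every dense subsequence of
which has two (distinct) terms at rational distance. -/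
theorem result : ∃ x : ℕ → Plane, Function.Injective x ∧ Dense (range x) ∧
    ∀ φ : ℕ → ℕ, StrictMono φ → Dense (range (x ∘ φ)) →
      ∃ k l : ℕ, k ≠ l ∧ ¬ Irrational (dist (x (φ k)) (x (φ l))) := by
  obtain ⟨u, hu⟩ := TopologicalSpace.exists_dense_seq Plane
  obtain ⟨x, hinj, hxd, hxQ⟩ := exists_injective_dense (Q u) (dense_Q u hu)
  refine ⟨x, hinj, hxd, ?_⟩
  intro φ _ hd
  obtain ⟨y, hy, ⟨k, rfl⟩⟩ := Metric.dense_iff.1 hd 0 1 one_pos
  rw [mem_ball] at hy
  obtain ⟨i, hi⟩ := (hxQ (φ k)).1 hy
  obtain ⟨z, hz, ⟨l, rfl⟩⟩ := Metric.dense_iff.1 hd (ctr i) 1 one_pos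
  rw [mem_ball] at hz
  obtain ⟨r, hr⟩ := (hxQ (φ l)).2 i hz
  refine ⟨k, l, ?_, ?_⟩
  · rintro rfl
    have h1 := dist_ctr_zero i
    have h2 := dist_triangle (ctr i) ((x ∘ φ) k) 0
    rw [dist_comm (ctr i) ((x ∘ φ) k)] at h2
    linarith
  · rw [hi, dist_comm] at hr
    rw [hr]
    intro h
    exact h ⟨r, rfl⟩

end Pool.Agent.Results.MP_9c82d2_co.NoIrrational
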